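import Pool.Agent.Helper45.CF.GoalsC
import Pool.Agent.Helper34.CAR.Parts

/-!
MP_d97caa_an, packet CF2-LCM: the limit of the scalar matrices.
-/

set_option autoImplicit false

open scoped ComplexOrder ZeroAtInfty Topology ComplexConjugate NNReal
open TopologicalSpace Filter

namespace Pool.Agent.Helper31.CF2.LCM

open Pool.Agent.Helper34.CAR Pool.Agent.Helper39.CR Pool.Agent.Helper39.Uct
  Pool.Agent.Helper39.CarDefs Pool.Agent.Helper45.CF

noncomputable section

/-- The system of the scalars. -/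
def cs {B' : Type} [CStarAlgebra B'] (d : DData B') : Sys ℂ (StarAlgHom.id ℂ ℂ) :=
  d.sys (algC B') (StarAlgHom.id ℂ ℂ) (StarAlgHom.id ℂ ℂ)

theorem hom_eq {C : Type} [Fintype C] [DecidableEq C] (K : ℂ →⋆ₐ[ℂ] Mt C ℂ) (b : ℂ) (p q : C) :
    K b p q = if p = q then b else 0 := by
  have h : K b = algebraMap ℂ (Mt C ℂ) b := by
    have := AlgHomClass.commutes K b
    exact this
  rw [h, Mt.algebraMap_apply]
  rfl

theorem cs_κ {B' : Type} [CStarAlgebra B'] (d : DData B') (i : ℕ) (x : Mt (d.S i) ℂ) :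
    (cs d).κ i x = Mt.of (xt (d.e i) fun p q => x p q) := by
  ext p q
  rw [Sys.κ_apply, Mt.of_apply]
  exact hom_eq _ _ _ _

theorem cs_mat {B' : Type} [CStarAlgebra B'] (d : DData B') : (cs d).Matricial := by
  refine ⟨fun i => 1, fun i => ⟨by rw [star_one, one_mul], by rw [star_one, one_mul]⟩, ?_, ?_⟩
  · intro i x
    refine ⟨xt (d.e i) x, ?_⟩
    rw [star_one, one_mul, mul_one, star_one, one_mul, mul_one]
    exact cs_κ d i _
  · intro j a ε hε
    refine ⟨0, fun p q => a p q, ?_⟩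
    have h : (Mt.scal fun p q => a p q : (cs d).A j) = a := rfl
    show ‖a - star (1 : (cs d).A j) * (Mt.scal fun p q => a p q : (cs d).A j) * (1 : (cs d).A j)‖ < ε
    rw [star_one, one_mul, mul_one, h, sub_self, norm_zero]
    exact hε

theorem t : S_LCM := by
  intro B' _ d
  obtain ⟨M, _, μ, h1, h2, h3⟩ := t_IL (cs d).A (cs d).κ (t_KINJ ℂ _ (cs d))
  refine ⟨M, _, μ, t_CARL ℂ _ (cs d) (cs_mat d) M μ h1 h2 h3, h2, fun i x => ?_, h3⟩
  rw [← cs_κ d i x]
  exact h1 i x

end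

end Pool.Agent.Helper31.CF2.LCM
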